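import Pool.Agent.Helper3K9.Z4

set_option autoImplicit false

/-!
# The surface for 4-uniform hypergraphs

`z_4 (x, y) = 1 / (4 x + y)` on the whole domain `D_4`, and the supremum is attained.
-/

namespace Pool.Agent.Results.MP_0828a1_co.ZFour

open Pool.Agent.Helper3K9.Dom

/-- **`z_4` on all of `D_4`.** For all real `x, y` with `y ≥ 0` and `x > -y/4` the supremum of
`γ(H) / (x n_H + y m_H)` over the 4-uniform hypergraphs without isolated vertices is
`1 / (4 x + y)`, and it is attained. -/
theorem result (x y : ℝ) (hy : 0 ≤ y) (hx : -y / 4 < x) :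
    z 4 x y = 1 / (4 * x + y) ∧ IsGreatest (ratios 4 x y) (1 / (4 * x + y)) :=
  ⟨(Pool.Agent.Helper3K9.Z4.z4_greatest x y hy hx).csSup_eq,
    Pool.Agent.Helper3K9.Z4.z4_greatest x y hy hx⟩

end Pool.Agent.Results.MP_0828a1_co.ZFour
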